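import Mathlib

set_option autoImplicit false

namespace Pool.Agent.Results.MP_9c836a_co.CaseThree

/-- The set of symbols in row `i`. -/
def rowSet {r c v : ℕ} (T : Fin r → Fin c → Fin v) (i : Fin r) : Finset (Fin v) :=
  Finset.univ.filter fun s => ∃ j, T i j = s

/-- The set of symbols in column `j`. -/
def colSet {r c v : ℕ} (T : Fin r → Fin c → Fin v) (j : Fin c) : Finset (Fin v) :=
  Finset.univ.filter fun s => ∃ i, T i j = s

/-- `T` is an `(r × c, v)`-triple array. -/
def IsTripleArray {r c v : ℕ} (T : Fin r → Fin c → Fin v) : Prop :=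
  (∀ i j j', T i j = T i j' → j = j') ∧
  (∀ i i' j, T i j = T i' j → i = i') ∧
  (∃ e : ℕ, ∀ s, (Finset.univ.filter fun p : Fin r × Fin c => T p.1 p.2 = s).card = e) ∧
  (∃ l : ℕ, ∀ i i', i ≠ i' → (rowSet T i ∩ rowSet T i').card = l) ∧
  (∃ l : ℕ, ∀ j j', j ≠ j' → (colSet T j ∩ colSet T j').card = l) ∧
  (∃ l : ℕ, ∀ i j, (rowSet T i ∩ colSet T j).card = l)

/-- The array, one byte per cell (row by row, lowest byte first).  It is the development modulo 13
of its row `0`, which reads
101 62 117 114 103 108 90 64 129 23 78 13 12, 56 88 65 49 38 17 77 82 39 25 10 26 52,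
127 30 75 36 4 95 43 91 69 104 116 51 121, 0:
adding 1 to the row index, to the column index inside each group of 13 columns (column 39 is
fixed) and to `t` in the symbol `13 b + t` preserves the array. -/
def table : ℕ :=
  0xc7e7832737444672a5e03234a1d374026091833514c1025304d57640b195a16803f596b6671813d0b1c7d773172734366295d02224956363f25081732504b0f242f4c3c630a1859157f3e586a6570800a481b7c763071724265285c01214b55353e240716314f4a0e232e7f3b62091758147e3d5769646f0920471a7b752f70714164275b002d4a54343d230615304e490d226e7e3a61081657137d3c566863080c1f46267a812e6f704d633367212c4953403c2205142f5a4819626d7d3960071556127c3b557407660b1e452579802d6e6f4c623218202b48523f3b2104132e594773616c7c385f061455117b3a540631650a1d4424787f2c6d6e4b6146171f2a47513e3a2003122d585372606b7b375e051354107a3905603064091c4323777e2b6c6d4a5745161e2946503d391f02112c3852715f6a7a365d0412530f7904495f2f63081b4222767d2a6b6c2b5644151d28454f3c381e0110783751705e6979355c0311520e036b485e2e62071a4121757c296a0f2a5543141c27444e3b371d000d7736506f5d6878345b02105102696a475d2d6106264d20817b280c0e295442131b33435a3a361c501976354f6e5c74774067010f01276869465c2c6005254c1f807a1b0b0d285341121a32425939350e4f1875344e6d5b73763f66000079337468455b2b5f04244b1e7f341a0a1927524d1126314158380c0d4e1781405a6c6772753e65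

def ent (i j : ℕ) : ℕ := Nat.mod (Nat.mod (Nat.shiftRight table (8 * (40 * i + j))) 256) 130

def arr (i : Fin 13) (j : Fin 40) : Fin 130 := ⟨ent i j, Nat.mod_lt _ (by norm_num)⟩

def rowTab : ℕ :=
  0x3411a08d046823411a08d046823411a086823411a08d046823411a08d046823410d046823411a08d046823411a08d046821a08d046823411a08d046823411a08d063411a08d046823411a08d046823411a046823411a08d046823411a08d046823408d046823411a08d046823411a08d046811a08d046823411a08d046823411a08d023411a08d046823411a08d046823411a046823411a08d046823411a08d046823608d046823411a08d046823411a08d046411a08d046823411a08d046823411a08e823411a08d046823411a08d046823411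

def colTab : ℕ :=
  0x7ffc42000a4100000300000200811000100008400148200000600002400022000200010900210400000c0000480004400040002120042080000180000901008000080004340004100000300001202010000100808280008200000600002404020000201010500810000000c00004808040000402020a0102000000180000911000000080404140204000200200001222000000100808280408000c00000002444000000221000500810001800000004888000000442000a01020003000002008110000000884001482000006000004010220000001000000000030021000240a008240240000000000000600421004014010480480000000000000c008420080290201009000000000000018010840100520422002000000000000030021480000a408440040000000000000600429008010810880080000000000000c808120100210211001000000000000019010240a0002042200200000000000003202048140104004400400000000004004404090280208008800800000000018000808120500410011001000000000030021000240a008200220020000000000600420004814010480400048108401400090000110000000000700010210802800120000220000000800a0002042100500024000044000000300040004084200a10040000088000000600080208008401420080000110000000c0010041001080284010004020000000180020082002100548000008040000000300040104404000a90000010080000000600080208808801120000020100000000c0010041101100224000044000000000180020082202a00048000088000000000300048100405400090000110000000000600090210802800120000220000000000c001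

def allLt (p : ℕ → Bool) (n : ℕ) : Bool := Nat.rec true (fun k r => p k && r) n

def anyLt (p : ℕ → Bool) (n : ℕ) : Bool := Nat.rec false (fun k r => p k || r) n

def cnt (p : ℕ → Bool) (n : ℕ) : ℕ := Nat.rec 0 (fun k r => cond (p k) (r + 1) r) n

theorem allLt_spec {p : ℕ → Bool} {n : ℕ} (h : allLt p n = true) (k : Fin n) : p k = true := by
  obtain ⟨k, hk⟩ := k
  induction n with
  | zero => omega
  | succ n ih =>
    have h' : (p n && allLt p n) = true := h
    rw [Bool.and_eq_true] at h'
    rcases Nat.lt_succ_iff_lt_or_eq.1 hk with h1 | h1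
    · exact ih h'.2 h1
    · subst h1; exact h'.1

theorem anyLt_spec (p : ℕ → Bool) (n : ℕ) : anyLt p n = true ↔ ∃ k : Fin n, p k = true := by
  induction n with
  | zero => simp [anyLt]
  | succ n ih =>
    have h' : anyLt p (n + 1) = (p n || anyLt p n) := rfl
    rw [h', Bool.or_eq_true, ih, Fin.exists_fin_succ']
    simp [or_comm]

theorem cnt_spec (p : ℕ → Bool) (n : ℕ) :
    (Finset.univ.filter fun s : Fin n => p s = true).card = cnt p n := by
  rw [Finset.card_filter, Fin.sum_univ_eq_sum_range (fun s => if p s = true then 1 else 0)]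
  induction n with
  | zero => rfl
  | succ n ih =>
    have h' : cnt p (n + 1) = cond (p n) (cnt p n + 1) (cnt p n) := rfl
    rw [Finset.sum_range_succ, ih, h']
    cases p n <;> simp

def bit (a s : ℕ) : Bool := Nat.beq (Nat.mod (Nat.shiftRight a s) 2) 1

def rowBit (i s : ℕ) : Bool := bit rowTab (130 * i + s)

def colBit (j s : ℕ) : Bool := bit colTab (130 * j + s)

theorem beq_iff (a b : ℕ) : Nat.beq a b = true ↔ a = b := by simp

theorem cR : allLt (fun i => allLt (fun s =>
    rowBit i s == anyLt (fun j => Nat.beq (ent i j) s) 40) 130) 13 = true := by decide +kernel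

theorem cC : allLt (fun j => allLt (fun s =>
    colBit j s == anyLt (fun i => Nat.beq (ent i j) s) 13) 130) 40 = true := by decide +kernel

theorem c1 : allLt (fun i => allLt (fun j => allLt (fun j' =>
    !(Nat.beq (ent i j) (ent i j')) || Nat.beq j j') 40) 40) 13 = true := by decide +kernel

theorem c2 : allLt (fun i => allLt (fun i' => allLt (fun j =>
    !(Nat.beq (ent i j) (ent i' j)) || Nat.beq i i') 40) 13) 13 = true := by decide +kernel

theorem c3 : allLt (fun s => Nat.beq (cnt (fun i => rowBit i s) 13) 4) 130 = true := by
  decide +kernel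

theorem c4 : allLt (fun i => allLt (fun i' => Nat.beq i i' ||
    Nat.beq (cnt (fun s => rowBit i s && rowBit i' s) 130) 10) 13) 13 = true := by decide +kernel

theorem c5 : allLt (fun j => allLt (fun j' => Nat.beq j j' ||
    Nat.beq (cnt (fun s => colBit j s && colBit j' s) 130) 1) 40) 40 = true := by decide +kernel

theorem c6 : allLt (fun i => allLt (fun j =>
    Nat.beq (cnt (fun s => rowBit i s && colBit j s) 130) 4) 40) 13 = true := by decide +kernel

theorem row_iff (i : Fin 13) (s : Fin 130) : (∃ j, arr i j = s) ↔ rowBit i s = true := by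
  have h := allLt_spec (allLt_spec cR i) s
  rw [beq_iff_eq] at h
  rw [h, anyLt_spec]
  simp only [beq_iff, arr, Fin.ext_iff]

theorem col_iff (j : Fin 40) (s : Fin 130) : (∃ i, arr i j = s) ↔ colBit j s = true := by
  have h := allLt_spec (allLt_spec cC j) s
  rw [beq_iff_eq] at h
  rw [h, anyLt_spec]
  simp only [beq_iff, arr, Fin.ext_iff]

theorem h1 : ∀ i j j', arr i j = arr i j' → j = j' := by
  intro i j j' h
  have h0 := allLt_spec (allLt_spec (allLt_spec c1 i) j) j'
  have h' : ent i j = ent i j' := congrArg Fin.val h
  simp only [Bool.or_eq_true, Bool.not_eq_true', beq_iff] at h0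
  rcases h0 with h0 | h0
  · rw [(beq_iff _ _).2 h'] at h0; exact absurd h0 (by simp)
  · exact Fin.ext h0

theorem h2 : ∀ i i' j, arr i j = arr i' j → i = i' := by
  intro i i' j h
  have h0 := allLt_spec (allLt_spec (allLt_spec c2 i) i') j
  have h' : ent i j = ent i' j := congrArg Fin.val h
  simp only [Bool.or_eq_true, Bool.not_eq_true', beq_iff] at h0
  rcases h0 with h0 | h0
  · rw [(beq_iff _ _).2 h'] at h0; exact absurd h0 (by simp)
  · exact Fin.ext h0

theorem h3 : ∀ s, (Finset.univ.filter fun p : Fin 13 × Fin 40 => arr p.1 p.2 = s).card = 4 := by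
  intro s
  have h0 := (beq_iff _ _).1 (allLt_spec c3 s)
  rw [← cnt_spec] at h0
  rw [← h0]
  refine Finset.card_bij (fun p _ => p.1) ?_ ?_ ?_
  · intro p hp
    simp only [Finset.mem_filter, Finset.mem_univ, true_and] at hp ⊢
    exact (row_iff _ _).1 ⟨_, hp⟩
  · intro p hp p' hp' h
    simp only [Finset.mem_filter, Finset.mem_univ, true_and] at hp hp'
    refine Prod.ext h (h1 p.1 _ _ ?_)
    rw [hp, h, hp']
  · intro i hi
    simp only [Finset.mem_filter, Finset.mem_univ, true_and] at hi
    obtain ⟨j, hj⟩ := (row_iff _ _).2 hi
    exact ⟨(i, j), by simpa using hj, rfl⟩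

theorem h4 : ∀ i i', i ≠ i' → (rowSet arr i ∩ rowSet arr i').card = 10 := by
  intro i i' hne
  have h0 := allLt_spec (allLt_spec c4 i) i'
  simp only [Bool.or_eq_true, beq_iff] at h0
  rcases h0 with h0 | h0
  · exact absurd (Fin.ext h0) hne
  · rw [← cnt_spec] at h0
    rw [← h0]
    congr 1
    ext s
    simp [rowSet, row_iff]

theorem h5 : ∀ j j', j ≠ j' → (colSet arr j ∩ colSet arr j').card = 1 := by
  intro j j' hne
  have h0 := allLt_spec (allLt_spec c5 j) j'
  simp only [Bool.or_eq_true, beq_iff] at h0
  rcases h0 with h0 | h0
  · exact absurd (Fin.ext h0) hne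
  · rw [← cnt_spec] at h0
    rw [← h0]
    congr 1
    ext s
    simp [colSet, col_iff]

theorem h6 : ∀ i j, (rowSet arr i ∩ colSet arr j).card = 4 := by
  intro i j
  have h0 := (beq_iff _ _).1 (allLt_spec (allLt_spec c6 i) j)
  rw [← cnt_spec] at h0
  rw [← h0]
  congr 1
  ext s
  simp [rowSet, colSet, row_iff, col_iff]

/-- A `(13 × 40, 130)`-triple array exists: the case `q = 3`. -/
theorem result :
    ∃ T : Fin ((3 ^ 3 - 1) / (3 - 1)) → Fin ((3 ^ 4 - 1) / (3 - 1)) →
      Fin (((3 ^ 4 - 1) * (3 ^ 3 - 1)) / ((3 ^ 2 - 1) * (3 - 1))), IsTripleArray T :=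
  ⟨arr, h1, h2, ⟨4, h3⟩, ⟨10, h4⟩, ⟨1, h5⟩, ⟨4, h6⟩⟩

end Pool.Agent.Results.MP_9c836a_co.CaseThree
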